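import Pool.Agent.H84.CcB

namespace Pool.Agent.Results.MP_bf7e1e_gt.Counter

open Pool.Agent.H84.CcDefs

theorem result : ∃ (X Y : Type) (_ : TopologicalSpace X) (_ : TopologicalSpace Y),
    T35Space X ∧ T35Space Y ∧ Nonempty X ∧ Nonempty Y ∧ CountablyCompactSpace X ∧
    DimLE X 0 ∧ DimLE Y 0 ∧ ¬ DimLE (X × Y) 0 := by
  obtain ⟨X, Y, hX, hY, h1, h2⟩ := Pool.Agent.H84.CcB.main
  exact ⟨X, Y, inferInstance, inferInstance, {}, {}, ⟨⟨_, hX ∅⟩⟩, ⟨⟨_, hY ∅⟩⟩,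
    isCountablyCompact_iff_countablyCompactSpace.1 h1, Pool.Agent.H84.CcB.dim0 hX,
    Pool.Agent.H84.CcB.dim0 hY, h2⟩

end Pool.Agent.Results.MP_bf7e1e_gt.Counter
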